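import Mathlib
import Pool.Agent.Helper30.FillDefs
import Pool.Agent.Helper30.FillArea
import Pool.Agent.Helper30.FillDist

/-!
Q1 is disproved: for all `a > b > 0` there is a Möbius band with a directed Finsler metric which
fills without shortcuts a Finsler closed curve of directed lengths `a` and `b`, and whose
unnormalised Holmes-Thompson area is `b (a + b) / 4`, which is less than `a b / 2`.

The example. Take the flat Möbius band obtained from the strip `ℝ × [-1, 1]` with coordinates
`(t, r)` by identifying `(t, r)` with `(t + π, -r)`, and the constant directed norm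
`F = max (α dt) (-β dt + γ |dr|)` with `α = a / (2π)`, `β = b / (2π)`, `γ = b / 4`. A path from the
boundary to itself either stays on its side of the strip, and then it is not shorter than the
corresponding boundary arc, or it changes the side; in the latter case the term `γ |dr|`
contributes `2 γ = π β`, which is exactly what the jump by `π` of the boundary parameter can save.
The codisk at each point is a triangle of area `γ (α + β)`, and the band has coordinate area `2π`.
-/

open Set MeasureTheory
open scoped Manifold ContDiff ENNReal

namespace Pool.Agent.Results.MP_1fb3ec_gt.MobiusCounterexample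

open Pool.Agent.Helper30.Filling

/-- For all `a > b > 0` there is a compact connected surface `M` with a directed Finsler semimetric
`F` which fills without shortcuts a Finsler closed curve `(Circle, G)` of directed lengths `a` and
`b`, such that the unnormalised Holmes-Thompson area of `(M, F)` is `b (a + b) / 4 < a b / 2`. -/
theorem result : ∀ a b : ℝ, 0 < b → b < a →
    ∃ (M : Type) (_ : TopologicalSpace M) (_ : ChartedSpace (EuclideanHalfSpace 2) M)
      (_ : IsSurface M) (_ : MeasurableSpace M)
      (F : SurfaceFinsler M) (G : CircleFinsler) (ι : Circle → M),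
      T2Space M ∧ CompactSpace M ∧ ConnectedSpace M ∧ BorelSpace M ∧
      SurfaceFills F G ι ∧
      lengthPos G = ENNReal.ofReal a ∧ lengthNeg G = ENNReal.ofReal b ∧
      (∃ μ : Measure M, IsAreaMeasure F μ) ∧
      ∀ μ : Measure M, IsAreaMeasure F μ →
        μ univ = ENNReal.ofReal (b * (a + b) / 4) ∧ μ univ < ENNReal.ofReal (a * b / 2) := by
  intro a b hb hab
  have hpi := Real.pi_pos
  have ha : 0 < a := hb.trans hab
  have hα : 0 ≤ a / (2 * Real.pi) := by positivity
  have hβ : 0 ≤ b / (2 * Real.pi) := by positivity
  have hγ : 0 ≤ Real.pi * (b / (2 * Real.pi)) / 2 := by positivity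
  have hαβ : 0 < a / (2 * Real.pi) + b / (2 * Real.pi) := by
    have : 0 < b / (2 * Real.pi) := by positivity
    linarith
  refine ⟨Mob, inferInstance, inferInstance, inferInstance, inferInstance,
    FMob (a / (2 * Real.pi)) (b / (2 * Real.pi)) _ hα hβ hγ,
    GCirc (a / (2 * Real.pi)) (b / (2 * Real.pi)) hα hβ, bd, inferInstance, inferInstance,
    inferInstance, inferInstance, ⟨bd_isBoundaryParametrization, no_shortcut hα hβ hγ⟩, ?_, ?_,
    ⟨_, areaM_isHolmesThompson hα hβ hγ⟩, fun μ hμ => ?_⟩
  · rw [lengthPos, length_circlePos]
    congr 1
    field_simp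
  · rw [lengthNeg, length_circleNeg]
    congr 1
    field_simp
  · have h := area_unique hα hβ hγ hαβ hμ
    have h1 : Real.pi * (b / (2 * Real.pi)) / 2 * (a / (2 * Real.pi) + b / (2 * Real.pi)) *
        (2 * Real.pi) = b * (a + b) / 4 := by
      field_simp
      ring
    rw [h1] at h
    refine ⟨h, ?_⟩
    rw [h]
    refine (ENNReal.ofReal_lt_ofReal_iff (by positivity)).2 ?_
    nlinarith

end Pool.Agent.Results.MP_1fb3ec_gt.MobiusCounterexample
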